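import Pool.Agent.L7h42.Zauner.ExactMain
import Pool.Agent.L7h42.Zauner.ExactDense

/-!
# Approximate SIC-POVMs in every dimension
-/

set_option autoImplicit false

open Finset

namespace Pool.Agent.Results.MP_d0f9e0_co.ApproximateSICPOVM

/-- **Approximate SIC-POVMs in every dimension.** There are constants `c, C > 0` such that for
every dimension `d ≥ 1` there are exactly `d ^ 2` unit vectors `x_i` of `ℂ^d` which form an exactly
tight frame (`∑ |⟨x_i, u⟩|² = d ‖u‖²`, so that the operators `(1/d) x_i x_i^*` sum to the identity),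
satisfy `|(d + 1) |⟨x_i, x_j⟩|² - 1| ≤ C d^(-c)` for all `i ≠ j`, and are informationally complete:
a linear map `T` with `⟨x_i, T x_i⟩ = 0` for all `i` is zero. -/
theorem result : ∃ c C : ℝ, 0 < c ∧ 0 < C ∧ ∀ d : ℕ, 1 ≤ d →
    ∃ x : Fin (d ^ 2) → EuclideanSpace ℂ (Fin d),
      (∀ i, ‖x i‖ = 1) ∧
      (∀ i j, i ≠ j →
        |((d : ℝ) + 1) * ‖(inner ℂ (x i) (x j) : ℂ)‖ ^ 2 - 1| ≤ C * (d : ℝ) ^ (-c)) ∧
      (∀ u : EuclideanSpace ℂ (Fin d),
        ∑ i, ‖(inner ℂ (x i) u : ℂ)‖ ^ 2 = (d : ℝ) * ‖u‖ ^ 2) ∧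
      (∀ T : EuclideanSpace ℂ (Fin d) →ₗ[ℂ] EuclideanSpace ℂ (Fin d),
        (∀ i, (inner ℂ (x i) (T (x i)) : ℂ) = 0) → T = 0) := by
  obtain ⟨c, C, hc, hC, h⟩ := Pool.Agent.L7h42.Zauner.Exact.exact_main
  refine ⟨c, 2 * C, hc, by positivity, fun d hd => ?_⟩
  obtain ⟨x, hx1, hx2, hx3⟩ := h d hd
  have hdR : (1 : ℝ) ≤ d := by exact_mod_cast hd
  have hd0 : (0 : ℝ) < d := by linarith
  set β : ℝ := C * (d : ℝ) ^ (-c) with hβ
  have hβ0 : 0 < β := mul_pos hC (Real.rpow_pos_of_pos hd0 _)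
  have hε : 0 < β / (4 * (d + 1)) := by positivity
  obtain ⟨z, hz1, hz2, hz3, hz4⟩ := Pool.Agent.L7h42.Zauner.IC.dense_ic
    (E := EuclideanSpace ℂ (Fin d)) (N := d ^ 2) (by simp) x (d : ℝ) hd0 hx1 hx3 _ hε
  refine ⟨z, hz1, fun i j hij => ?_, hz2, hz4⟩
  set ε : ℝ := β / (4 * (d + 1)) with hεd
  -- the inner products move by at most `2 ε`
  have h1 : ‖(inner ℂ (z i) (z j) : ℂ) - inner ℂ (x i) (x j)‖ ≤ 2 * ε := by
    have e1 : (inner ℂ (z i) (z j) : ℂ) - inner ℂ (x i) (x j) =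
        inner ℂ (z i - x i) (z j) + inner ℂ (x i) (z j - x j) := by
      rw [inner_sub_left, inner_sub_right]
      ring
    rw [e1]
    refine (norm_add_le _ _).trans ?_
    have e2 := norm_inner_le_norm (𝕜 := ℂ) (z i - x i) (z j)
    have e3 := norm_inner_le_norm (𝕜 := ℂ) (x i) (z j - x j)
    rw [hz1, mul_one] at e2
    rw [hx1, one_mul] at e3
    have e4 := hz3 i
    have e5 := hz3 j
    linarith
  have h2 : |‖(inner ℂ (z i) (z j) : ℂ)‖ - ‖(inner ℂ (x i) (x j) : ℂ)‖| ≤ 2 * ε :=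
    (abs_norm_sub_norm_le _ _).trans h1
  have h3 : ‖(inner ℂ (z i) (z j) : ℂ)‖ ≤ 1 := by
    have := norm_inner_le_norm (𝕜 := ℂ) (z i) (z j)
    rwa [hz1, hz1, mul_one] at this
  have h4 : ‖(inner ℂ (x i) (x j) : ℂ)‖ ≤ 1 := by
    have := norm_inner_le_norm (𝕜 := ℂ) (x i) (x j)
    rwa [hx1, hx1, mul_one] at this
  set t : ℝ := ‖(inner ℂ (z i) (z j) : ℂ)‖
  set t0 : ℝ := ‖(inner ℂ (x i) (x j) : ℂ)‖
  have h5 : ((d : ℝ) + 1) * t ^ 2 - 1 =
      (((d : ℝ) + 1) * t0 ^ 2 - 1) + ((d : ℝ) + 1) * ((t - t0) * (t + t0)) := by ring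
  have ht0 : 0 ≤ t := norm_nonneg _
  have ht00 : 0 ≤ t0 := norm_nonneg _
  rw [h5]
  refine (abs_add_le _ _).trans ?_
  have h6 : |((d : ℝ) + 1) * ((t - t0) * (t + t0))| ≤ β := by
    rw [abs_mul, abs_mul, abs_of_pos (by linarith : (0 : ℝ) < d + 1),
      abs_of_nonneg (add_nonneg ht0 ht00)]
    calc ((d : ℝ) + 1) * (|t - t0| * (t + t0)) ≤ ((d : ℝ) + 1) * ((2 * ε) * 2) := by
          apply mul_le_mul_of_nonneg_left _ (by positivity)
          exact mul_le_mul h2 (by linarith) (add_nonneg ht0 ht00) (by positivity)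
      _ = β := by
          rw [hεd]
          field_simp
          norm_num
  have h7 := hx2 i j hij
  have h8 : 2 * C * (d : ℝ) ^ (-c) = β + β := by rw [hβ]; ring
  rw [h8]
  exact add_le_add h7 h6

end Pool.Agent.Results.MP_d0f9e0_co.ApproximateSICPOVM
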