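import Mathlib
import Pool.Agent.L7h42.Zauner.Approx

/-!
# Heisenberg covariant almost maximal equiangular tight frames
-/

set_option autoImplicit false

namespace Pool.Agent.Results.MP_d0f9e0_co.CovariantApproximate

/-- The time-frequency shift of `x : F → ℂ` by `v = (a, χ)`: the vector with entries
`χ(k) x(k - a)`. These `|F|²` operators are, up to phases, the Weyl-Heisenberg group of `F`. -/
noncomputable def shift {F : Type} [Field F] [Fintype F] (v : F × AddChar F ℂ)
    (x : EuclideanSpace ℂ F) : EuclideanSpace ℂ F :=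
  WithLp.toLp 2 fun k => v.2 k * x (k - v.1)

/-- **Covariant almost maximal equiangular tight frames with Zauner's symmetry.** Let `F` be a
finite field with `q` elements and characteristic at least `5` (for instance `F = ℤ/p`, `p ≥ 5`
prime). There is a vector `x` of `ℂ^F = ℂ^q` whose orbit under the Weyl-Heisenberg group of `F`
consists of exactly `q²` unit vectors, is an exactly tight frame, and satisfies
`|(q + 1) |⟨x_v, x_w⟩|² - 1| ≤ 4 q^(-1/4) + 7 q^(-1/2)` for all `v ≠ w`, and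
`|⟨x_v, x_w⟩| = 1/√(q+1)` exactly whenever `v` and `w` have the same translation part. Moreover
`x` is fixed by the unitaries `k ↦ c k`, `c³ = 1` (of order three if `q ≡ 1 mod 3`), and by the
antiunitary which combines `k ↦ -k` with complex conjugation. -/
theorem result (F : Type) [Field F] [Fintype F] (h2 : (2 : F) ≠ 0) (h3 : (3 : F) ≠ 0) :
    Fintype.card (F × AddChar F ℂ) = Fintype.card F ^ 2 ∧
    ∃ x : EuclideanSpace ℂ F,
      (∀ v, ‖shift v x‖ = 1) ∧
      (∀ u, ∑ v, ‖inner ℂ (shift v x) u‖ ^ 2 = (Fintype.card F : ℝ) * ‖u‖ ^ 2) ∧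
      (∀ v w, v ≠ w →
        |((Fintype.card F : ℝ) + 1) * ‖inner ℂ (shift v x) (shift w x)‖ ^ 2 - 1| ≤
          4 * (Fintype.card F : ℝ) ^ (-(1 / 4) : ℝ) +
            7 * (Fintype.card F : ℝ) ^ (-(1 / 2) : ℝ)) ∧
      (∀ v w, v ≠ w → v.1 = w.1 →
        ‖inner ℂ (shift v x) (shift w x)‖ = 1 / Real.sqrt ((Fintype.card F : ℝ) + 1)) ∧
      (∀ c : F, c ^ 3 = 1 → ∀ k, x (c * k) = x k) ∧
      ∀ k, x (-k) = (starRingEnd ℂ) (x k) := by
  classical
  obtain ⟨ψ, hψ⟩ := Pool.Agent.L7h42.Zauner.exists_prim F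
  refine ⟨?_, Pool.Agent.L7h42.Zauner.fid ψ, fun v => ?_, fun u => ?_, fun v w hvw => ?_,
    fun v w hvw h => ?_, fun c hc k => ?_, fun k => ?_⟩
  · rw [Fintype.card_prod, sq]
    congr 1
    exact AddChar.card_eq
  · exact (Pool.Agent.N392.Ab.norm_shift _ v).trans (Pool.Agent.L7h42.Zauner.norm_fid ψ)
  · have h := Pool.Agent.L7h42.Zauner.tight (Pool.Agent.L7h42.Zauner.fid ψ) u
    rw [Pool.Agent.L7h42.Zauner.norm_fid, one_pow, mul_one] at h
    exact h
  · exact (Pool.Agent.L7h42.Zauner.orbit h2 h3 hψ hvw).1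
  · exact (Pool.Agent.L7h42.Zauner.orbit h2 h3 hψ hvw).2 h
  · exact Pool.Agent.L7h42.Zauner.fid_cube ψ hc k
  · exact Pool.Agent.L7h42.Zauner.fid_neg ψ k

end Pool.Agent.Results.MP_d0f9e0_co.CovariantApproximate
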