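import Mathlib
import Pool.Agent.L7h40.GS.Cyc

/-!
# Almost maximal equiangular tight frames covariant under cyclic Weyl-Heisenberg groups
-/

set_option autoImplicit false

namespace Pool.Agent.Results.MP_d0f9e0_co.CyclicApproximate

/-- The time-frequency shift of `x : ℤ/d → ℂ` by `v = (a, χ)`: the vector with entries
`χ(k) x(k - a)`. These `d²` operators are, up to phases, the (cyclic) Weyl-Heisenberg group in
dimension `d`. -/
noncomputable def shift {d : ℕ} [NeZero d] (v : ZMod d × AddChar (ZMod d) ℂ)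
    (x : EuclideanSpace ℂ (ZMod d)) : EuclideanSpace ℂ (ZMod d) :=
  WithLp.toLp 2 fun k => v.2 k * x (k - v.1)

/-- **Weyl-Heisenberg covariant almost maximal equiangular tight frames for cyclic groups.** Let
`d ≥ 255` and let `d + 1` be a prime power, `d + 1 = p^r`. There is a vector `x` of `ℂ^d` whose
orbit under the Weyl-Heisenberg group of `ℤ/d` consists of exactly `d²` unit vectors, is an exactly
tight frame, and satisfies `|(d + 1) |⟨x_v, x_w⟩|² - 1| ≤ 8 (d+1)^(-1/4) + 38 (d+1)^(-1/2)` for all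
`v ≠ w`. Moreover `x` is fixed by the unitary `k ↦ p k` of order `r`. -/
theorem result (d : ℕ) [NeZero d] (hd : IsPrimePow (d + 1)) (h255 : 255 ≤ d) :
    Fintype.card (ZMod d × AddChar (ZMod d) ℂ) = d ^ 2 ∧
    ∃ x : EuclideanSpace ℂ (ZMod d),
      (∀ v, ‖shift v x‖ = 1) ∧
      (∀ u, ∑ v, ‖inner ℂ (shift v x) u‖ ^ 2 = (d : ℝ) * ‖u‖ ^ 2) ∧
      (∀ v w, v ≠ w →
        |((d : ℝ) + 1) * ‖inner ℂ (shift v x) (shift w x)‖ ^ 2 - 1| ≤
          8 * ((d : ℝ) + 1) ^ (-(1 / 4) : ℝ) + 38 * ((d : ℝ) + 1) ^ (-(1 / 2) : ℝ)) ∧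
      ∀ p : ℕ, p.Prime → p ∣ d + 1 → ∀ k, x ((p : ZMod d) * k) = x k := by
  classical
  obtain ⟨x, hx1, hx2, hx3⟩ := Pool.Agent.L7h40.GS.cyclic d hd h255
  refine ⟨?_, x, fun v => ?_, fun u => ?_, fun v w hvw => ?_, hx3⟩
  · rw [Fintype.card_prod, sq]
    congr 1
    · exact ZMod.card d
    · rw [AddChar.card_eq, ZMod.card]
  · exact (Pool.Agent.N392.Ab.norm_shift _ v).trans hx1
  · have h := Pool.Agent.L7h42.Zauner.tight x u
    rw [hx1, one_pow, mul_one, ZMod.card] at h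
    exact h
  · have h1 : inner ℂ (shift v x) (shift w x) =
        (w.2 - v.2) v.1 * Pool.Agent.N392.Ab.ov x (v.1 - w.1) (w.2 - v.2) :=
      Pool.Agent.N392.Ab.inner_shift x v w
    rw [h1, norm_mul, Pool.Agent.N392.Ab.norm_char, one_mul]
    apply hx2
    by_contra h
    push Not at h
    exact hvw (Prod.ext (sub_eq_zero.1 h.1) (sub_eq_zero.1 h.2).symm)

end Pool.Agent.Results.MP_d0f9e0_co.CyclicApproximate
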