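import Mathlib
import Pool.Agent.L7h35.Par.Main
import Pool.Agent.L7h35.Par.Conv

set_option autoImplicit false

namespace Pool.Agent.Results.MP_d0f9e0_co.ParityFiducials

variable {A : Type*} [AddCommGroup A] [Fintype A]

/-- The time-frequency shift of `x : A → ℂ` by `v = (a, χ)`: the vector with entries
`χ(k) x(k - a)`. -/
noncomputable def shift (v : A × AddChar A ℂ) (x : EuclideanSpace ℂ A) : EuclideanSpace ℂ A :=
  WithLp.toLp 2 fun k => v.2 k * x (k - v.1)

/-- The `|A|²` time-frequency shifts of `x` (its orbit under the Heisenberg group of `A`, up to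
phases) form a maximal equiangular tight frame in dimension `|A|`: they are unit vectors and any
two of them have an inner product of modulus `1 / √(|A| + 1)`. -/
def IsFiducial (x : EuclideanSpace ℂ A) : Prop :=
  (∀ v : A × AddChar A ℂ, ‖shift v x‖ = 1) ∧
  ∀ v w : A × AddChar A ℂ, v ≠ w →
    ‖inner ℂ (shift v x) (shift w x)‖ = 1 / Real.sqrt ((Fintype.card A : ℝ) + 1)

/-- The reflections of the Heisenberg group of `A` (the displaced parity operators): the linear
map sending `x` to the vector with entries `χ(k) x(v - k)`. -/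
noncomputable def reflect (v : A) (χ : AddChar A ℂ) (x : EuclideanSpace ℂ A) :
    EuclideanSpace ℂ A :=
  WithLp.toLp 2 fun k => χ k * x (v - k)

/-- Let `A` be a finite abelian group of order at least `3`. There is a fiducial vector over `A`
which is an eigenvector of one of the reflections (displaced parity operators) if and only if `A`
is the group of order three or the elementary abelian group of order eight. -/
theorem result (hA : 3 ≤ Fintype.card A) :
    (∃ x : EuclideanSpace ℂ A, IsFiducial x ∧
      ∃ (v : A) (χ : AddChar A ℂ) (c : ℂ), reflect v χ x = c • x) ↔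
    (Fintype.card A = 3 ∨ (Fintype.card A = 8 ∧ ∀ a : A, a + a = 0)) := by
  have key : ∀ (x : EuclideanSpace ℂ A) (v : A),
      (∃ (χ : AddChar A ℂ) (c : ℂ), reflect v χ x = c • x) ↔
      ∃ (χ₀ : AddChar A ℂ) (c : ℂ), ∀ k, x (v - k) = c * χ₀ k * x k := by
    intro x v
    have h0 : ∀ (χ : AddChar A ℂ) (k : A), χ k * (-χ) k = 1 := by
      intro χ k
      rw [AddChar.neg_apply, ← AddChar.map_add_eq_mul, add_neg_cancel, AddChar.map_zero_eq_one]
    constructor
    · rintro ⟨χ, c, h⟩
      refine ⟨-χ, c, fun k => ?_⟩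
      have h1 : χ k * x (v - k) = c * x k := by
        have h2 := congrArg (fun y : EuclideanSpace ℂ A => y k) h
        simpa [reflect] using h2
      linear_combination (-χ) k * h1 - x (v - k) * h0 χ k
    · rintro ⟨χ₀, c, h⟩
      refine ⟨-χ₀, c, ?_⟩
      ext k
      have h1 := h k
      have h2 : (-χ₀) k * x (v - k) = c * x k := by
        linear_combination (-χ₀) k * h1 + c * x k * h0 χ₀ k
      simpa [reflect] using h2
  constructor
  · rintro ⟨x, hx, v, χ, c, h⟩
    obtain ⟨χ₀, c, h'⟩ := (key x v).1 ⟨χ, c, h⟩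
    exact Pool.Agent.L7h35.Par.forward hA hx h'
  · rintro (h | ⟨h, h2⟩)
    · obtain ⟨x, hx, v, χ₀, c, h'⟩ := Pool.Agent.L7h35.Par.three h
      obtain ⟨χ, c, h''⟩ := (key x v).2 ⟨χ₀, c, h'⟩
      exact ⟨x, hx, v, χ, c, h''⟩
    · obtain ⟨x, hx, v, χ₀, c, h'⟩ := Pool.Agent.L7h35.Par.eight h h2
      obtain ⟨χ, c, h''⟩ := (key x v).2 ⟨χ₀, c, h'⟩
      exact ⟨x, hx, v, χ, c, h''⟩

end Pool.Agent.Results.MP_d0f9e0_co.ParityFiducials
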